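import Pool.Agent.H71.HV.Targets2

/-!
B1: from an equivariant system to a point.
-/

set_option autoImplicit false

open Set Topology TopologicalSpace Filter

namespace Pool.Agent.H71.HV

universe u v

lemma exists_tasks' {Q : Type*} [Preorder Q] {I : Type*} [Countable I] [Nonempty I] (a : Q)
    (D : I → Q → Q → Prop) (hD : ∀ i x, ∃ y ≤ x, D i x y) :
    ∃ s : ℕ → Q, s 0 = a ∧ Antitone s ∧ ∀ i m, ∃ k ≥ m, D i (s k) (s (k + 1)) := by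
  choose T hT1 hT2 using hD
  obtain ⟨s, h0, h1, h2⟩ := exists_tasks a T hT1
  refine ⟨s, h0, h1, fun i m => ?_⟩
  obtain ⟨k, hk, hk'⟩ := h2 i m
  exact ⟨k, hk, by rw [hk']; exact hT2 _ _⟩

variable {G : Type u} {Y : Type v} [Group G] [MetricSpace G] [TopologicalSpace Y] [MulAction G Y]
variable {C : Ctx G Y} {J : Type} [LinearOrder J] {P : Type} [Preorder P]

/-- a sufficiently generic descending sequence from `w0` -/
structure BGood (S : Sys C J P) (p : ℕ → P) (z : ℕ → ℕ) : Prop where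
  anti : Antitone p
  zero : p 0 = S.w0
  unb : ∀ m, ∃ n, m ≤ (S.stem (p n)).length
  pre : ∀ n, Pre (S.stem (p n)) z
  dec0 : ∀ V k, ∃ n, C.Forces (S.stem (p n)) V k ∨ S.neg (p n) V k
  d2 : ∀ b V Z V', C.B V' ⊆ C.B V → ∃ n, (∃ b' ≤ b, ∃ Z', C.B Z' ⊆ C.B Z ∧
    S.R b' (p n) Z' V') ∨ ∀ a ≤ p n, ¬ S.R a b V Z
  d2' : ∀ b Z V Z', C.B Z' ⊆ C.B Z → ∃ n, (∃ b' ≤ b, ∃ V', C.B V' ⊆ C.B V ∧
    S.R (p n) b' V' Z') ∨ ∀ a ≤ p n, ¬ S.R b a Z V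
  d5 : ∀ b V Z, ∃ n, ∃ b' ≤ b, S.R (p n) b' V Z ∨ ∃ V', C.B V' ⊆ C.B V ∧ S.N (p n) b' V' Z
  d5' : ∀ b Z V, ∃ n, ∃ b' ≤ b, S.R b' (p n) Z V ∨ ∃ Z', C.B Z' ⊆ C.B Z ∧ S.N b' (p n) Z' V

/-- existence of generic sequences -/
theorem exists_bgood [Countable J] [Countable P] (S : Sys C J P) :
    ∃ (p : ℕ → P) (z : ℕ → ℕ), BGood S p z ∧ (∀ V W, ∃ n l, S.lab (p n) V W = some l) ∧
      ∀ ξ, ∃ n, ∃ D : RD, D.Valid ∧ S.rob (p n) D ξ := by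
  classical
  let I := ℕ ⊕ (ℕ × ℕ) ⊕ (ℕ × ℕ) ⊕ J ⊕ (P × ℕ × ℕ × ℕ) ⊕ (P × ℕ × ℕ × ℕ) ⊕ (P × ℕ × ℕ) ⊕
    (P × ℕ × ℕ)
  let D : I → P → P → Prop := fun j _ y => match j with
    | .inl n => n ≤ (S.stem y).length
    | .inr (.inl (V, k)) => C.Forces (S.stem y) V k ∨ S.neg y V k
    | .inr (.inr (.inl (V, W))) => ∃ l, S.lab y V W = some l
    | .inr (.inr (.inr (.inl ξ))) => ∃ D : RD, D.Valid ∧ S.rob y D ξ
    | .inr (.inr (.inr (.inr (.inl (b, V, Z, V'))))) => C.B V' ⊆ C.B V →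
        (∃ b' ≤ b, ∃ Z', C.B Z' ⊆ C.B Z ∧ S.R b' y Z' V') ∨ ∀ a ≤ y, ¬ S.R a b V Z
    | .inr (.inr (.inr (.inr (.inr (.inl (b, Z, V, Z')))))) => C.B Z' ⊆ C.B Z →
        (∃ b' ≤ b, ∃ V', C.B V' ⊆ C.B V ∧ S.R y b' V' Z') ∨ ∀ a ≤ y, ¬ S.R b a Z V
    | .inr (.inr (.inr (.inr (.inr (.inr (.inl (b, V, Z))))))) =>
        ∃ b' ≤ b, S.R y b' V Z ∨ ∃ V', C.B V' ⊆ C.B V ∧ S.N y b' V' Z
    | .inr (.inr (.inr (.inr (.inr (.inr (.inr (b, Z, V))))))) =>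
        ∃ b' ≤ b, S.R b' y Z V ∨ ∃ Z', C.B Z' ⊆ C.B Z ∧ S.N b' y Z' V
  have hD : ∀ i x, ∃ y ≤ x, D i x y := by
    rintro (n | ⟨V, k⟩ | ⟨V, W⟩ | ξ | ⟨b, V, Z, V'⟩ | ⟨b, Z, V, Z'⟩ | ⟨b, V, Z⟩ | ⟨b, Z, V⟩) x
    · exact S.stem_ext x n
    · exact S.dec0 x V k
    · exact S.dec x V W
    · exact S.rob_ex x ξ
    · by_cases h : ∃ a ≤ x, S.R a b V Z
      · obtain ⟨a, ha, hR⟩ := h
        by_cases hV : C.B V' ⊆ C.B V
        · obtain ⟨a', ha', b', hb', Z', hZ', hR'⟩ := S.R2 a b V Z V' hR hV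
          exact ⟨a', ha'.trans ha, fun _ => Or.inl ⟨b', hb', Z', hZ', hR'⟩⟩
        · exact ⟨x, le_rfl, fun h => absurd h hV⟩
      · exact ⟨x, le_rfl, fun _ => Or.inr fun a ha hR => h ⟨a, ha, hR⟩⟩
    · by_cases h : ∃ a ≤ x, S.R b a Z V
      · obtain ⟨a, ha, hR⟩ := h
        by_cases hZ : C.B Z' ⊆ C.B Z
        · obtain ⟨b', hb', a', ha', V', hV', hR'⟩ := S.R2 b a Z V Z' hR hZ
          exact ⟨a', ha'.trans ha, fun _ => Or.inl ⟨b', hb', V', hV', hR'⟩⟩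
        · exact ⟨x, le_rfl, fun h => absurd h hZ⟩
      · exact ⟨x, le_rfl, fun _ => Or.inr fun a ha hR => h ⟨a, ha, hR⟩⟩
    · obtain ⟨a', ha', b', hb', h⟩ := S.R5 x b V Z
      exact ⟨a', ha', b', hb', h⟩
    · obtain ⟨b', hb', a', ha', h⟩ := S.R5 b x Z V
      exact ⟨a', ha', b', hb', h⟩
  obtain ⟨s, h0, hanti, hs⟩ := exists_tasks' (I := I) S.w0 D hD
  have hu : ∀ m, ∃ n, m ≤ (S.stem (s n)).length := fun m => by
    obtain ⟨k, -, hk⟩ := hs (.inl m) 0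
    exact ⟨k + 1, hk⟩
  obtain ⟨z, hz⟩ := S.toStem.exists_limit hanti hu
  refine ⟨s, z, ⟨hanti, h0, hu, hz, ?_, ?_, ?_, ?_, ?_⟩, ?_, ?_⟩
  · intro V k
    obtain ⟨n, -, hn⟩ := hs (.inr (.inl (V, k))) 0
    exact ⟨n + 1, hn⟩
  · intro b V Z V' hV
    obtain ⟨n, -, hn⟩ := hs (.inr (.inr (.inr (.inr (.inl (b, V, Z, V')))))) 0
    exact ⟨n + 1, hn hV⟩
  · intro b Z V Z' hZ
    obtain ⟨n, -, hn⟩ := hs (.inr (.inr (.inr (.inr (.inr (.inl (b, Z, V, Z'))))))) 0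
    exact ⟨n + 1, hn hZ⟩
  · intro b V Z
    obtain ⟨n, -, hn⟩ := hs (.inr (.inr (.inr (.inr (.inr (.inr (.inl (b, V, Z)))))))) 0
    exact ⟨n + 1, hn⟩
  · intro b Z V
    obtain ⟨n, -, hn⟩ := hs (.inr (.inr (.inr (.inr (.inr (.inr (.inr (b, Z, V)))))))) 0
    exact ⟨n + 1, hn⟩
  · intro V W
    obtain ⟨n, -, hn⟩ := hs (.inr (.inr (.inl (V, W)))) 0
    exact ⟨n + 1, hn⟩
  · intro ξ
    obtain ⟨n, -, hn⟩ := hs (.inr (.inr (.inr (.inl ξ)))) 0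
    exact ⟨n + 1, hn⟩

/-- invariance of generic sequences -/
theorem BGood.act {E : EqSys C J P} {p : ℕ → P} {z : ℕ → ℕ} (h : BGood E.toSys p z) (σ : Gam) :
    BGood E.toSys (fun n => E.aP σ (p n)) z := by
  have e1 : ∀ x, E.aP σ (E.aP σ⁻¹ x) = x := fun x => by
    rw [← E.aP_mul, mul_inv_cancel, E.aP_one]
  have e2 : ∀ x, E.aP σ⁻¹ (E.aP σ x) = x := fun x => by
    rw [← E.aP_mul, inv_mul_cancel, E.aP_one]
  have hle : ∀ {x y : P}, x ≤ E.aP σ⁻¹ y → E.aP σ x ≤ y := fun {x y} h => by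
    have := E.aP_le σ h
    rwa [e1] at this
  have hle' : ∀ {x y : P}, x ≤ E.aP σ y → E.aP σ⁻¹ x ≤ y := fun {x y} h => by
    have := E.aP_le σ⁻¹ h
    rwa [e2] at this
  refine ⟨fun m n hmn => E.aP_le σ (h.anti hmn), ?_, ?_, ?_, ?_, ?_, ?_, ?_, ?_⟩
  · change E.aP σ (p 0) = E.w0
    rw [h.zero, E.a_w0]
  · intro m
    obtain ⟨n, hn⟩ := h.unb m
    exact ⟨n, by rw [E.a_stem]; exact hn⟩
  · intro n
    rw [E.a_stem]
    exact h.pre n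
  · intro V k
    obtain ⟨n, hn⟩ := h.dec0 V k
    refine ⟨n, ?_⟩
    rw [E.a_stem]
    exact hn.imp id (E.a_neg σ _ _ _)
  · intro b V Z V' hV
    obtain ⟨n, hn⟩ := h.d2 (E.aP σ⁻¹ b) V Z V' hV
    refine ⟨n, ?_⟩
    rcases hn with ⟨b', hb', Z', hZ', hR⟩ | hn
    · exact Or.inl ⟨E.aP σ b', hle hb', Z', hZ', E.a_R σ _ _ _ _ hR⟩
    · refine Or.inr fun a ha hR => hn (E.aP σ⁻¹ a) (hle' ha) ?_
      exact E.a_R σ⁻¹ _ _ _ _ hR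
  · intro b Z V Z' hZ
    obtain ⟨n, hn⟩ := h.d2' (E.aP σ⁻¹ b) Z V Z' hZ
    refine ⟨n, ?_⟩
    rcases hn with ⟨b', hb', V', hV', hR⟩ | hn
    · exact Or.inl ⟨E.aP σ b', hle hb', V', hV', E.a_R σ _ _ _ _ hR⟩
    · refine Or.inr fun a ha hR => hn (E.aP σ⁻¹ a) (hle' ha) ?_
      exact E.a_R σ⁻¹ _ _ _ _ hR
  · intro b V Z
    obtain ⟨n, b', hb', hn⟩ := h.d5 (E.aP σ⁻¹ b) V Z
    refine ⟨n, E.aP σ b', hle hb', ?_⟩
    rcases hn with hR | ⟨V', hV', hN⟩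
    · exact Or.inl (E.a_R σ _ _ _ _ hR)
    · exact Or.inr ⟨V', hV', E.a_N σ _ _ _ _ hN⟩
  · intro b Z V
    obtain ⟨n, b', hb', hn⟩ := h.d5' (E.aP σ⁻¹ b) Z V
    refine ⟨n, E.aP σ b', hle hb', ?_⟩
    rcases hn with hR | ⟨Z', hZ', hN⟩
    · exact Or.inl (E.a_R σ _ _ _ _ hR)
    · exact Or.inr ⟨Z', hZ', E.a_N σ _ _ _ _ hN⟩

/-- the relation of two sequences -/
def SRel (S : Sys C J P) (p b : ℕ → P) (V Z : ℕ) : Prop := ∃ n m, S.R (p n) (b m) V Z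

/-- a common companion for two generic sequences -/
theorem exists_comp [ContinuousConstSMul G Y] (S : Sys C J P) (q : Bool → ℕ → P) (z : ℕ → ℕ)
    (hq : ∀ i, BGood S (q i) z) :
    ∃ (b : ℕ → P) (y : Y), Antitone b ∧ (∀ V W, ∃ n l, S.lab (b n) V W = some l) ∧
      ∀ i, Corr C (C.f z) y (SRel S (q i) b) (SRel S b (q i)) := by
  classical
  let I := ℕ ⊕ (ℕ × ℕ) ⊕ (ℕ × ℕ) ⊕ (Bool × ℕ × ℕ × ℕ) ⊕ (Bool × ℕ × ℕ × ℕ) ⊕ (Bool × ℕ × ℕ) ⊕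
    (Bool × ℕ × ℕ)
  let D : I → P → P → Prop := fun j x y => match j with
    | .inl n => n ≤ (S.stem y).length
    | .inr (.inl (V, k)) => C.Forces (S.stem y) V k ∨ S.neg y V k
    | .inr (.inr (.inl (V, W))) => ∃ l, S.lab y V W = some l
    | .inr (.inr (.inr (.inl (i, V, Z, V')))) => C.B V' ⊆ C.B V → (∃ n, S.R (q i n) x V Z) →
        ∃ n Z', C.B Z' ⊆ C.B Z ∧ S.R y (q i n) Z' V'
    | .inr (.inr (.inr (.inr (.inl (i, Z, V, Z'))))) => C.B Z' ⊆ C.B Z →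
        (∃ n, S.R x (q i n) Z V) → ∃ n V', C.B V' ⊆ C.B V ∧ S.R (q i n) y V' Z'
    | .inr (.inr (.inr (.inr (.inr (.inl (i, V, Z)))))) =>
        ∃ n, S.R (q i n) y V Z ∨ ∃ V', C.B V' ⊆ C.B V ∧ S.N (q i n) y V' Z
    | .inr (.inr (.inr (.inr (.inr (.inr (i, Z, V)))))) =>
        ∃ n, S.R y (q i n) Z V ∨ ∃ Z', C.B Z' ⊆ C.B Z ∧ S.N y (q i n) Z' V
  have hD : ∀ i x, ∃ y ≤ x, D i x y := by
    rintro (n | ⟨V, k⟩ | ⟨V, W⟩ | ⟨i, V, Z, V'⟩ | ⟨i, Z, V, Z'⟩ | ⟨i, V, Z⟩ | ⟨i, Z, V⟩) x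
    · exact S.stem_ext x n
    · exact S.dec0 x V k
    · exact S.dec x V W
    · by_cases hV : C.B V' ⊆ C.B V
      · by_cases h : ∃ n, S.R (q i n) x V Z
        · obtain ⟨n, hn⟩ := h
          obtain ⟨m, ⟨b', hb', Z', hZ', hR⟩ | hm⟩ := (hq i).d2 x V Z V' hV
          · exact ⟨b', hb', fun _ _ => ⟨m, Z', hZ', hR⟩⟩
          · exact absurd (S.R1 ((hq i).anti (le_max_left n m)) le_rfl V Z hn)
              (hm _ ((hq i).anti (le_max_right n m)))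
        · exact ⟨x, le_rfl, fun _ h' => absurd h' h⟩
      · exact ⟨x, le_rfl, fun h => absurd h hV⟩
    · by_cases hZ : C.B Z' ⊆ C.B Z
      · by_cases h : ∃ n, S.R x (q i n) Z V
        · obtain ⟨n, hn⟩ := h
          obtain ⟨m, ⟨b', hb', V', hV', hR⟩ | hm⟩ := (hq i).d2' x Z V Z' hZ
          · exact ⟨b', hb', fun _ _ => ⟨m, V', hV', hR⟩⟩
          · exact absurd (S.R1 le_rfl ((hq i).anti (le_max_left n m)) Z V hn)
              (hm _ ((hq i).anti (le_max_right n m)))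
        · exact ⟨x, le_rfl, fun _ h' => absurd h' h⟩
      · exact ⟨x, le_rfl, fun h => absurd h hZ⟩
    · obtain ⟨n, b', hb', h⟩ := (hq i).d5 x V Z
      exact ⟨b', hb', n, h⟩
    · obtain ⟨n, b', hb', h⟩ := (hq i).d5' x Z V
      exact ⟨b', hb', n, h⟩
  obtain ⟨s, h0, hanti, hs⟩ := exists_tasks' (I := I) S.w0 D hD
  have hu : ∀ m, ∃ n, m ≤ (S.stem (s n)).length := fun m => by
    obtain ⟨k, -, hk⟩ := hs (.inl m) 0
    exact ⟨k + 1, hk⟩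
  obtain ⟨y, hy⟩ := S.toStem.exists_limit hanti hu
  have hneg : ∀ V k, ¬ C.Hit (C.f y) V k → ∃ n, S.neg (s n) V k := by
    intro V k h
    obtain ⟨n, -, hn⟩ := hs (.inr (.inl (V, k))) 0
    rcases hn with hn | hn
    · exact absurd (hn y (hy _)) h
    · exact ⟨_, hn⟩
  have hneg' : ∀ i V k, ¬ C.Hit (C.f z) V k → ∃ n, S.neg (q i n) V k := by
    intro i V k h
    obtain ⟨n, hn | hn⟩ := (hq i).dec0 V k
    · exact absurd (hn z ((hq i).pre _)) h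
    · exact ⟨_, hn⟩
  refine ⟨s, C.f y, hanti, ?_, fun i => ⟨?_, ?_, ?_, ?_, ?_, ?_, ?_, ?_, ?_, ?_, ?_⟩⟩
  · intro V W
    obtain ⟨n, -, hn⟩ := hs (.inr (.inr (.inl (V, W)))) 0
    exact ⟨n + 1, hn⟩
  · refine ⟨0, 0, ?_⟩
    rw [h0, (hq i).zero]
    exact S.R0
  · rintro V Z V' ⟨n, m, hR⟩ hV
    obtain ⟨k, hk, hk'⟩ := hs (.inr (.inr (.inr (.inl (i, V, Z, V'))))) m
    obtain ⟨n', Z', hZ', hR'⟩ := hk' hV ⟨n, S.R1 le_rfl (hanti hk) V Z hR⟩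
    exact ⟨Z', hZ', k + 1, n', hR'⟩
  · rintro Z V Z' ⟨m, n, hR⟩ hZ
    obtain ⟨k, hk, hk'⟩ := hs (.inr (.inr (.inr (.inr (.inl (i, Z, V, Z')))))) m
    obtain ⟨n', V', hV', hR'⟩ := hk' hZ ⟨n, S.R1 (hanti hk) le_rfl Z V hR⟩
    exact ⟨V', hV', n', k + 1, hR'⟩
  · rintro V Z k ⟨n, m, hR⟩ hk
    by_contra hcon
    obtain ⟨n1, h1⟩ := Ctx.hit_forces (hq i).unb (hq i).pre hk
    obtain ⟨m1, h2⟩ := hneg Z k hcon
    exact S.R3 _ _ V Z k (S.R1 ((hq i).anti (le_max_left n n1)) (hanti (le_max_left m m1)) V Z hR)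
      (h1.mono_stem (S.stem_mono ((hq i).anti (le_max_right n n1))))
      (S.neg_mono (hanti (le_max_right m m1)) _ _ h2)
  · rintro Z V k ⟨m, n, hR⟩ hk
    by_contra hcon
    obtain ⟨m1, h1⟩ := Ctx.hit_forces hu hy hk
    obtain ⟨n1, h2⟩ := hneg' i V k hcon
    exact S.R3 _ _ Z V k (S.R1 (hanti (le_max_left m m1)) ((hq i).anti (le_max_left n n1)) Z V hR)
      (h1.mono_stem (S.stem_mono (hanti (le_max_right m m1))))
      (S.neg_mono ((hq i).anti (le_max_right n n1)) _ _ h2)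
  · rintro j V Z ⟨n, m, hR⟩
    exact ⟨n, m, S.R6 _ _ _ _ _ hR⟩
  · rintro j Z V ⟨n, m, hR⟩
    exact ⟨n, m, S.R6 _ _ _ _ _ hR⟩
  · rintro V Z V' Z' hV hZ ⟨n, m, hR⟩
    exact ⟨n, m, S.R7 _ _ _ _ _ _ hV hZ hR⟩
  · rintro Z V Z' V' hZ hV ⟨n, m, hR⟩
    exact ⟨n, m, S.R7 _ _ _ _ _ _ hZ hV hR⟩
  · intro V Z
    obtain ⟨k, -, n, hR | ⟨V', hV', hN⟩⟩ :=
      hs (.inr (.inr (.inr (.inr (.inr (.inl (i, V, Z))))))) 0
    · exact Or.inl ⟨n, k + 1, hR⟩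
    · refine Or.inr ⟨V', hV', ?_⟩
      rintro Z' hZ' ⟨m', n', hR⟩
      exact S.N_not _ _ V' Z Z'
        (S.N_mono ((hq i).anti (le_max_left n n')) (hanti (le_max_left (k + 1) m')) _ _ hN) hZ'
        (S.R1 (hanti (le_max_right (k + 1) m')) ((hq i).anti (le_max_right n n')) _ _ hR)
  · intro Z V
    obtain ⟨k, -, n, hR | ⟨Z', hZ', hN⟩⟩ :=
      hs (.inr (.inr (.inr (.inr (.inr (.inr (i, Z, V))))))) 0
    · exact Or.inl ⟨k + 1, n, hR⟩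
    · refine Or.inr ⟨Z', hZ', ?_⟩
      rintro V' hV' ⟨n', m', hR⟩
      exact S.N_not _ _ Z' V V'
        (S.N_mono (hanti (le_max_left (k + 1) m')) ((hq i).anti (le_max_left n n')) _ _ hN) hV'
        (S.R1 ((hq i).anti (le_max_right n n')) (hanti (le_max_right (k + 1) m')) _ _ hR)

/-- `Δ` is the labelling given by the sequence `p` -/
def LabOf (S : Sys C J P) (p : ℕ → P) (Δ : ℕ → ℕ → Lab J) : Prop :=
  ∀ V W, ∃ n, S.lab (p n) V W = some (Δ V W)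

lemma LabOf.at {S : Sys C J P} {p : ℕ → P} {Δ : ℕ → ℕ → Lab J} (h : LabOf S p Δ)
    (hp : Antitone p) (V W : ℕ) : ∃ n, ∀ m ≥ n, S.lab (p m) V W = some (Δ V W) := by
  obtain ⟨n, hn⟩ := h V W
  exact ⟨n, fun m hm => S.lab_mono (hp hm) _ _ _ hn⟩

lemma LabOf.le {S : Sys C J P} {p b : ℕ → P} {Δ Δ2 : ℕ → ℕ → Lab J} (h : LabOf S p Δ)
    (h2 : LabOf S b Δ2) (hp : Antitone p) (hb : Antitone b) (V Z V1 Z1 : ℕ)
    (h3 : SRel S p b V Z) (h4 : SRel S b p Z1 V1) : Δ V1 V ≤ Δ2 Z1 Z := by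
  obtain ⟨n1, hn1⟩ := h.at hp V1 V
  obtain ⟨m1, hm1⟩ := h2.at hb Z1 Z
  obtain ⟨n2, m2, hR⟩ := h3
  obtain ⟨m3, n3, hR'⟩ := h4
  set N := max n1 (max n2 n3)
  set M := max m1 (max m2 m3)
  have a1 : n1 ≤ N := le_max_left _ _
  have a2 : n2 ≤ N := (le_max_left _ _).trans (le_max_right _ _)
  have a3 : n3 ≤ N := (le_max_right _ _).trans (le_max_right _ _)
  have b1 : m1 ≤ M := le_max_left _ _
  have b2 : m2 ≤ M := (le_max_left _ _).trans (le_max_right _ _)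
  have b3 : m3 ≤ M := (le_max_right _ _).trans (le_max_right _ _)
  exact S.R4 (p N) (b M) V Z V1 Z1 _ _ (S.R1 (hp a2) (hb b2) _ _ hR)
    (S.R1 (hb b3) (hp a3) _ _ hR') (hn1 N a1) (hm1 M b1)

theorem B1 : B1AsmStmt.{u, v} := by
  intro hK hPhi G Y _ _ _ _ _ _ _ _ hG C J _ _ P _ _ E
  obtain ⟨p, z, hp, hlab, hrob⟩ := exists_bgood E.toSys
  choose nl Δ hΔ using hlab
  have hΔ' : LabOf E.toSys p Δ := fun V W => ⟨_, hΔ V W⟩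
  refine ⟨z, Δ, ?_, ?_, ?_⟩
  · intro V W V' W' hV hW
    obtain ⟨n, hn⟩ := hΔ'.at hp.anti V W
    obtain ⟨m, hm⟩ := hΔ'.at hp.anti V' W'
    exact E.lmono (p (max n m)) V W V' W' _ _ hV hW (hn _ (le_max_left _ _))
      (hm _ (le_max_right _ _))
  · intro ξ
    obtain ⟨n, D, hD, hr⟩ := hrob ξ
    refine ⟨D, hD, fun e he => ?_, ?_⟩
    · obtain ⟨m, hm⟩ := hΔ'.at hp.anti (C.bt D.i D.r) (C.bt D.j (D.s + e))
      exact E.rob_up (p (max n m)) D ξ (E.rob_mono (hp.anti (le_max_left _ _)) _ _ hr) e he _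
        (hm _ (le_max_right _ _))
    · obtain ⟨m, hm⟩ := hΔ'.at hp.anti (C.bt D.i D.r1) (C.bt D.j (D.s + D.e))
      exact E.rob_down (p (max n m)) D ξ (E.rob_mono (hp.anti (le_max_left _ _)) _ _ hr) _
        (hm _ (le_max_right _ _))
  · intro σ
    have hp' := hp.act σ
    let q : Bool → ℕ → P := fun i => bif i then p else fun n => E.aP σ (p n)
    have hq : ∀ i, BGood E.toSys (q i) z := by
      rintro (_ | _)
      · exact hp'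
      · exact hp
    obtain ⟨b, y, hb, hlb, hc⟩ := exists_comp E.toSys q z hq
    choose nl2 Δ2 hΔ2 using hlb
    have h2 : LabOf E.toSys b Δ2 := fun V W => ⟨_, hΔ2 V W⟩
    have h3 : LabOf E.toSys (fun n => E.aP σ (p n)) (fun V W => mapLab (E.aJ σ) (Δ V W)) := by
      intro V W
      refine ⟨nl V W, ?_⟩
      rw [E.a_lab, hΔ V W]
      rfl
    obtain ⟨k, hk, hk1, hk2⟩ := hK G Y C (C.f z) y _ _ (hc true)
    obtain ⟨k', hk', hk1', hk2'⟩ := hK G Y C (C.f z) y _ _ (hc false)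
    refine ⟨k'⁻¹ * k, ?_, ?_⟩
    · rw [MulAction.mem_stabilizer_iff, mul_smul, hk, ← hk', inv_smul_smul]
    · refine hPhi G Y hG C J Δ Δ2 (mapLab (E.aJ σ)) k k' ?_ ?_ ?_ ?_
      · intro V V' Z Z' h4 h5
        exact hΔ'.le h2 hp.anti hb V' Z' V Z (hk1 _ _ h5) (hk2 _ _ h4)
      · intro V V' Z Z' h4 h5
        exact h2.le hΔ' hb hp.anti Z' V' Z V (hk2 _ _ h5) (hk1 _ _ h4)
      · intro V V' Z Z' h4 h5
        exact h3.le h2 hp'.anti hb V' Z' V Z (hk1' _ _ h5) (hk2' _ _ h4)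
      · intro V V' Z Z' h4 h5
        exact h2.le h3 hb hp'.anti Z' V' Z V (hk2' _ _ h5) (hk1' _ _ h4)

end Pool.Agent.H71.HV
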