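import Pool.Agent.H71.HV.Targets2

/-!
Module F: the stabiliser is divisible by the infinite symmetric group.
-/

set_option autoImplicit false

open Set Topology TopologicalSpace Filter

namespace Pool.Agent.H71.HV

universe u v

section MapLab

variable {J : Type}

theorem mapLab_id' : mapLab (id : J → J) = id := by
  unfold mapLab
  funext l
  rcases l with _ | _ | l <;> rfl

theorem mapLab_comp' (φ ψ : J → J) : mapLab (φ ∘ ψ) = mapLab φ ∘ mapLab ψ := by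
  funext l
  unfold mapLab
  rcases l with _ | _ | l <;> rfl

@[simp] theorem mapLab_lb (φ : J → J) (ξ : J) : mapLab φ (lb ξ) = lb (φ ξ) := rfl

theorem mapLab_mono [LinearOrder J] {φ : J → J} (hφ : Monotone φ) : Monotone (mapLab φ) := by
  unfold mapLab
  exact WithBot.monotone_map_iff.2 (WithTop.monotone_map_iff.2 hφ)

theorem mapLab_congr_at (φ ψ : J → J) (l : Lab J) (h : ∀ ξ, l = lb ξ → φ ξ = ψ ξ) :
    mapLab φ l = mapLab ψ l := by
  rcases l with _ | _ | ξ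
  · rfl
  · rfl
  · have := h ξ rfl
    change mapLab φ (lb ξ) = mapLab ψ (lb ξ)
    rw [mapLab_lb, mapLab_lb, this]

theorem eq_lb_of_mapLab (φ : J → J) (l : Lab J) (ζ : J) (h : mapLab φ l = lb ζ) :
    ∃ ξ, l = lb ξ ∧ φ ξ = ζ := by
  rcases l with _ | _ | ξ
  · exfalso
    change (⊥ : Lab J) = lb ζ at h
    exact absurd h.symm WithBot.coe_ne_bot
  · exfalso
    change (((⊤ : WithTop J) : WithBot (WithTop J))) = ((ζ : WithTop J) : WithBot (WithTop J)) at h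
    have := WithBot.coe_injective h
    exact absurd this.symm (WithTop.coe_ne_top)
  · refine ⟨ξ, rfl, ?_⟩
    change mapLab φ (lb ξ) = lb ζ at h
    rw [mapLab_lb] at h
    unfold lb at h
    have := WithBot.coe_injective h
    exact WithTop.coe_injective this

end MapLab

section

variable {G : Type u} {Y : Type v} [Group G] [MetricSpace G] [TopologicalSpace Y] [MulAction G Y]
variable {C : Ctx G Y} {J : Type} [LinearOrder J] {P : Type} [Preorder P] (E : EqSys C J P)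

theorem EqSys.aJ_mono (σ : Gam) : Monotone (E.aJ σ) := by
  intro a b hab
  rcases hab.lt_or_eq with h | h
  · exact (E.aJ_lt σ h).le
  · rw [h]

theorem EqSys.aJ_inv (σ : Gam) (ξ : J) : E.aJ σ⁻¹ (E.aJ σ ξ) = ξ := by
  rw [← E.aJ_mul, inv_mul_cancel, E.aJ_one]

theorem EqSys.aJ_inv' (σ : Gam) (ξ : J) : E.aJ σ (E.aJ σ⁻¹ ξ) = ξ := by
  rw [← E.aJ_mul, mul_inv_cancel, E.aJ_one]

theorem EqSys.ι_inj {a b : ℚ} (h : E.ι a = E.ι b) : a = b := by
  rcases lt_trichotomy a b with h1 | h1 | h1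
  · exact absurd h (E.ι_lt h1).ne
  · exact h1
  · exact absurd h (E.ι_lt h1).ne'

/-- `π` realises `σ` -/
def Rz (Δ : ℕ → ℕ → Lab J) (σ : Gam) (π : G) : Prop := C.Phi Δ (mapLab (E.aJ σ)) π

variable [IsTopologicalGroup G] {Δ : ℕ → ℕ → Lab J} {z : ℕ → ℕ}

theorem Rz.mul (hF1 : F1Stmt.{u, v}) (hG : RInv G) {σ τ : Gam} {π ρ : G}
    (h1 : Rz E Δ σ π) (h2 : Rz E Δ τ ρ) : Rz E Δ (τ * σ) (π * ρ) := by
  have h := (hF1 G Y hG C J Δ).1 _ _ π ρ (mapLab_mono (E.aJ_mono σ)) (mapLab_mono (E.aJ_mono τ))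
    h1 h2
  unfold Rz
  have e : mapLab (E.aJ (τ * σ)) = mapLab (E.aJ τ) ∘ mapLab (E.aJ σ) := by
    rw [← mapLab_comp']
    congr 1
    funext ξ
    exact E.aJ_mul τ σ ξ
  rw [e]
  exact h

theorem Rz.inv (hF1 : F1Stmt.{u, v}) (hG : RInv G) {σ : Gam} {π : G}
    (h1 : Rz E Δ σ π) : Rz E Δ σ⁻¹ π⁻¹ := by
  have e1 : ∀ l, mapLab (E.aJ σ) (mapLab (E.aJ σ⁻¹) l) = l := by
    intro l
    have := congrFun (mapLab_comp' (E.aJ σ) (E.aJ σ⁻¹)) l
    rw [Function.comp_apply] at this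
    rw [← this]
    have e : E.aJ σ ∘ E.aJ σ⁻¹ = id := by
      funext ξ; exact E.aJ_inv' σ ξ
    rw [e, mapLab_id']
    rfl
  have e2 : ∀ l, mapLab (E.aJ σ⁻¹) (mapLab (E.aJ σ) l) = l := by
    intro l
    have := congrFun (mapLab_comp' (E.aJ σ⁻¹) (E.aJ σ)) l
    rw [Function.comp_apply] at this
    rw [← this]
    have e : E.aJ σ⁻¹ ∘ E.aJ σ = id := by
      funext ξ; exact E.aJ_inv σ ξ
    rw [e, mapLab_id']
    rfl
  exact (hF1 G Y hG C J Δ).2 _ _ π (mapLab_mono (E.aJ_mono σ)) (mapLab_mono (E.aJ_mono σ⁻¹))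
    e1 e2 h1

omit [IsTopologicalGroup G] in
theorem Rz.one
    (hmono : ∀ V W V' W', C.B V' ⊆ C.B V → C.B W ⊆ C.B W' → Δ V W ≤ Δ V' W') :
    Rz E Δ 1 1 := by
  have e : mapLab (E.aJ 1) = id := by
    rw [← mapLab_id']
    congr 1
    funext ξ
    exact E.aJ_one ξ
  have hb : ∀ (i j : ℕ) (r s : ℚ), 0 < r → 0 < s → dist (C.cen j) (C.cen i) + s < r →
      C.B (C.bt j s) ⊆ C.B (C.bt i r) := by
    intro i j r s hr hs h
    rw [C.B_bt _ _ hr, C.B_bt _ _ hs]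
    apply Metric.ball_subset_ball'
    linarith
  unfold Rz
  rw [e]
  refine ⟨?_, ?_⟩
  · intro i j i' j' r s r' s' hr hs hr' hs' h1 h2
    rw [mul_one] at h1 h2
    apply hmono
    · exact hb _ _ _ _ hr hs h1
    · apply hb _ _ _ _ hs' hr'
      rw [dist_comm]; exact h2
  · intro i j i' j' r s r' s' hr hs hr' hs' h1 h2
    rw [mul_one] at h1 h2
    apply hmono
    · apply hb _ _ _ _ hs hr
      rw [dist_comm]; exact h1
    · exact hb _ _ _ _ hr' hs' h2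

/-- `σ⁻¹ q` is locally constant -/
theorem Rz.loc_inv (hL : LocStmt.{u, v}) (hG : RInv G) (hF : Final C E.aJ z Δ) (π : G) (q : ℚ) :
    ∃ O : Set G, IsOpen O ∧ π ∈ O ∧ ∀ π1 ∈ O, ∀ π2 ∈ O, ∀ σ1 σ2, Rz E Δ σ1 π1 → Rz E Δ σ2 π2 →
      σ1⁻¹ q = σ2⁻¹ q := by
  obtain ⟨D, hD, h1, h2⟩ := hF.rob (E.ι q)
  obtain ⟨A, B, O, hO, hπ, h3⟩ := hL G Y hG C J Δ D (E.ι q) hD h1 h2 π
  refine ⟨O, hO, hπ, ?_⟩
  intro π1 hπ1 π2 hπ2 σ1 σ2 hσ1 hσ2
  obtain ⟨ξ1, h4, h5⟩ := eq_lb_of_mapLab _ _ _ (h3 π1 hπ1 _ hσ1)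
  obtain ⟨ξ2, h6, h7⟩ := eq_lb_of_mapLab _ _ _ (h3 π2 hπ2 _ hσ2)
  have e1 : ξ1 = E.ι (σ1⁻¹ q) := by
    rw [← E.a_ι, ← h5, E.aJ_inv]
  have e2 : ξ2 = E.ι (σ2⁻¹ q) := by
    rw [← E.a_ι, ← h7, E.aJ_inv]
  have e3 : ξ1 = ξ2 := by
    have : (lb ξ1 : Lab J) = lb ξ2 := h4.symm.trans h6
    unfold lb at this
    exact WithTop.coe_injective (WithBot.coe_injective this)
  rw [e1, e2] at e3
  exact E.ι_inj e3

/-- `σ q` is locally constant -/
theorem Rz.loc (hF1 : F1Stmt.{u, v}) (hL : LocStmt.{u, v}) (hG : RInv G)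
    (hF : Final C E.aJ z Δ) (π : G) (q : ℚ) :
    ∃ O : Set G, IsOpen O ∧ π ∈ O ∧ ∀ π1 ∈ O, ∀ π2 ∈ O, ∀ σ1 σ2, Rz E Δ σ1 π1 → Rz E Δ σ2 π2 →
      σ1 q = σ2 q := by
  obtain ⟨O, hO, hπ, h⟩ := Rz.loc_inv E hL hG hF π⁻¹ q
  refine ⟨(fun g => g⁻¹) ⁻¹' O, hO.preimage continuous_inv, hπ, ?_⟩
  intro π1 hπ1 π2 hπ2 σ1 σ2 hσ1 hσ2
  have := h π1⁻¹ hπ1 π2⁻¹ hπ2 _ _ (hσ1.inv E hF1 hG) (hσ2.inv E hF1 hG)
  simpa using this

theorem Rz.unique (hF1 : F1Stmt.{u, v}) (hL : LocStmt.{u, v}) (hG : RInv G)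
    (hF : Final C E.aJ z Δ) {π : G} {σ τ : Gam} (h1 : Rz E Δ σ π) (h2 : Rz E Δ τ π) : σ = τ := by
  ext q
  obtain ⟨O, hO, hπ, h⟩ := Rz.loc E hF1 hL hG hF π q
  exact h π hπ π hπ _ _ h1 h2

/-- passing to the limit -/
theorem Rz.limit (hF1 : F1Stmt.{u, v}) (hL : LocStmt.{u, v}) (hG : RInv G)
    (hF : Final C E.aJ z Δ) (S : Set Gam) (T : Set G) (π : G)
    (hπ : π ∈ closure {ρ | ρ ∈ T ∧ ∃ σ ∈ S, Rz E Δ σ ρ}) :
    ∃ σ : Gam, Rz E Δ σ π ∧ ∀ F : Finset ℚ, ∃ τ ∈ S, ∀ q ∈ F, τ q = σ q := by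
  choose O hO hπO hOc using fun q => Rz.loc E hF1 hL hG hF π q
  choose O' hO' hπO' hOc' using fun q => Rz.loc_inv E hL hG hF π q
  -- finitely many conditions can be met
  have hmeet : ∀ (F : Finset ℚ) (W : Set G), IsOpen W → π ∈ W → ∃ ρ ∈ W, (∀ q ∈ F, ρ ∈ O q) ∧
      (∀ q ∈ F, ρ ∈ O' q) ∧ ∃ σ ∈ S, Rz E Δ σ ρ := by
    intro F W hW hπW
    have hop : IsOpen (W ∩ ((⋂ q ∈ F, O q) ∩ ⋂ q ∈ F, O' q)) := by
      refine hW.inter (IsOpen.inter ?_ ?_)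
      · exact isOpen_biInter_finset fun q _ => hO q
      · exact isOpen_biInter_finset fun q _ => hO' q
    obtain ⟨ρ, ⟨h1, h2, h3⟩, h4⟩ := mem_closure_iff.1 hπ _ hop
      ⟨hπW, by simp only [mem_iInter]; exact fun q _ => hπO q,
        by simp only [mem_iInter]; exact fun q _ => hπO' q⟩
    simp only [mem_iInter] at h2 h3
    exact ⟨ρ, h1, h2, h3, h4.2⟩
  have hex : ∀ q, ∃ ρ ∈ O q, ∃ σ ∈ S, Rz E Δ σ ρ := by
    intro q
    obtain ⟨ρ, -, h1, -, h2⟩ := hmeet {q} univ isOpen_univ (mem_univ _)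
    exact ⟨ρ, h1 q (by simp), h2⟩
  have hex' : ∀ q, ∃ ρ ∈ O' q, ∃ σ ∈ S, Rz E Δ σ ρ := by
    intro q
    obtain ⟨ρ, -, -, h1, h2⟩ := hmeet {q} univ isOpen_univ (mem_univ _)
    exact ⟨ρ, h1 q (by simp), h2⟩
  choose ρ hρ s hs hρs using hex
  choose ρ' hρ' s' hs' hρs' using hex'
  -- the limit
  let b : ℚ → ℚ := fun q => s q q
  let a : ℚ → ℚ := fun q => (s' q)⁻¹ q
  have hb : ∀ q, ∀ π' ∈ O q, ∀ σ, Rz E Δ σ π' → σ q = b q := fun q π' hπ' σ hσ =>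
    hOc q π' hπ' (ρ q) (hρ q) σ (s q) hσ (hρs q)
  have ha : ∀ q, ∀ π' ∈ O' q, ∀ σ, Rz E Δ σ π' → σ⁻¹ q = a q := fun q π' hπ' σ hσ =>
    hOc' q π' hπ' (ρ' q) (hρ' q) σ (s' q) hσ (hρs' q)
  have hab : ∀ q, a (b q) = q := by
    intro q
    obtain ⟨π', -, h1, h2, σ, -, hσ⟩ := hmeet {q, b q} univ isOpen_univ (mem_univ _)
    rw [← ha (b q) π' (h2 _ (by simp)) σ hσ, ← hb q π' (h1 _ (by simp)) σ hσ]
    exact σ.symm_apply_apply q
  have hba : ∀ q, b (a q) = q := by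
    intro q
    obtain ⟨π', -, h1, h2, σ, -, hσ⟩ := hmeet {q, a q} univ isOpen_univ (mem_univ _)
    rw [← hb (a q) π' (h1 _ (by simp)) σ hσ, ← ha q π' (h2 _ (by simp)) σ hσ]
    exact σ.apply_symm_apply q
  have hlt : ∀ q q', q < q' → b q < b q' := by
    intro q q' hqq
    obtain ⟨π', -, h1, -, σ, -, hσ⟩ := hmeet {q, q'} univ isOpen_univ (mem_univ _)
    rw [← hb q π' (h1 _ (by simp)) σ hσ, ← hb q' π' (h1 _ (by simp)) σ hσ]
    exact σ.strictMono hqq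
  let σ₀ : Gam :=
    { toFun := b
      invFun := a
      left_inv := hab
      right_inv := hba
      map_rel_iff' := by
        intro q q'
        have hs : StrictMono b := fun q q' h => hlt q q' h
        exact hs.le_iff_le }
  have hσ₀ : ∀ q, σ₀ q = b q := fun q => rfl
  refine ⟨σ₀, ⟨?_, ?_⟩, ?_⟩
  · intro i j i' j' r t r' t' hr ht hr' ht' h1 h2
    obtain ⟨F, hFs⟩ : ∃ F : Finset ℚ, ∀ σ : Gam, (∀ q ∈ F, σ q = σ₀ q) →
        mapLab (E.aJ σ) (Δ (C.bt j t) (C.bt j' t')) =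
          mapLab (E.aJ σ₀) (Δ (C.bt j t) (C.bt j' t')) := by
      by_cases hl : ∃ ξ, Δ (C.bt j t) (C.bt j' t') = lb ξ
      · obtain ⟨ξ, hξ⟩ := hl
        obtain ⟨F, hF'⟩ := E.supp ξ
        refine ⟨F, fun σ hσ => ?_⟩
        rw [hξ, mapLab_lb, mapLab_lb, hF' σ σ₀ hσ]
      · exact ⟨∅, fun σ _ => mapLab_congr_at _ _ _ fun ξ hξ => absurd ⟨ξ, hξ⟩ hl⟩
    have hW : IsOpen {π' : G | dist (C.cen j * π') (C.cen i) + t < r ∧
        dist (C.cen j' * π') (C.cen i') + r' < t'} := by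
      refine IsOpen.inter ?_ ?_
      · exact isOpen_lt (f := fun π' : G => dist (C.cen j * π') (C.cen i) + (t : ℝ))
          (by fun_prop) continuous_const
      · exact isOpen_lt (f := fun π' : G => dist (C.cen j' * π') (C.cen i') + (r' : ℝ))
          (by fun_prop) continuous_const
    obtain ⟨π', ⟨h3, h4⟩, h5, -, σ, -, hσ⟩ := hmeet F _ hW ⟨h1, h2⟩
    have := hσ.1 i j i' j' r t r' t' hr ht hr' ht' h3 h4
    rwa [hFs σ fun q hq => hb q π' (h5 q hq) σ hσ] at this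
  · intro i j i' j' r t r' t' hr ht hr' ht' h1 h2
    obtain ⟨F, hFs⟩ : ∃ F : Finset ℚ, ∀ σ : Gam, (∀ q ∈ F, σ q = σ₀ q) →
        mapLab (E.aJ σ) (Δ (C.bt j t) (C.bt j' t')) =
          mapLab (E.aJ σ₀) (Δ (C.bt j t) (C.bt j' t')) := by
      by_cases hl : ∃ ξ, Δ (C.bt j t) (C.bt j' t') = lb ξ
      · obtain ⟨ξ, hξ⟩ := hl
        obtain ⟨F, hF'⟩ := E.supp ξ
        refine ⟨F, fun σ hσ => ?_⟩
        rw [hξ, mapLab_lb, mapLab_lb, hF' σ σ₀ hσ]
      · exact ⟨∅, fun σ _ => mapLab_congr_at _ _ _ fun ξ hξ => absurd ⟨ξ, hξ⟩ hl⟩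
    have hW : IsOpen {π' : G | dist (C.cen j * π') (C.cen i) + r < t ∧
        dist (C.cen j' * π') (C.cen i') + t' < r'} := by
      refine IsOpen.inter ?_ ?_
      · exact isOpen_lt (f := fun π' : G => dist (C.cen j * π') (C.cen i) + (r : ℝ))
          (by fun_prop) continuous_const
      · exact isOpen_lt (f := fun π' : G => dist (C.cen j' * π') (C.cen i') + (t' : ℝ))
          (by fun_prop) continuous_const
    obtain ⟨π', ⟨h3, h4⟩, h5, -, σ, -, hσ⟩ := hmeet F _ hW ⟨h1, h2⟩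
    have := hσ.2 i j i' j' r t r' t' hr ht hr' ht' h3 h4
    rwa [hFs σ fun q hq => hb q π' (h5 q hq) σ hσ] at this
  · intro F
    obtain ⟨π', -, h5, -, σ, hσS, hσ⟩ := hmeet F univ isOpen_univ (mem_univ _)
    exact ⟨σ, hσS, fun q hq => hb q π' (h5 q hq) σ hσ⟩

end

/-- the group of automorphisms respecting the colours -/
def colGam (c : ℚ → ℕ) : Subgroup Gam where
  carrier := {σ | ∀ q q', c q = c q' ↔ c (σ q) = c (σ q')}
  one_mem' := fun q q' => Iff.rfl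
  mul_mem' := by
    intro σ τ hσ hτ q q'
    rw [hτ q q', hσ (τ q) (τ q')]
    rfl
  inv_mem' := by
    intro σ hσ q q'
    rw [hσ (σ⁻¹ q) (σ⁻¹ q')]
    have e : ∀ q, σ (σ⁻¹ q) = q := fun q => σ.apply_symm_apply q
    rw [e, e]

/-- the induced permutation of the colours -/
noncomputable def colPerm (c : ℚ → ℕ) (hc : Function.Surjective c) (σ : colGam c) :
    Equiv.Perm ℕ where
  toFun n := c ((σ : Gam) (Function.surjInv hc n))
  invFun n := c ((σ : Gam)⁻¹ (Function.surjInv hc n))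
  left_inv := by
    intro n
    have h1 := (colGam c).inv_mem σ.2
    have h2 := (h1 (Function.surjInv hc (c ((σ : Gam) (Function.surjInv hc n))))
      ((σ : Gam) (Function.surjInv hc n))).1 (Function.surjInv_eq hc _)
    change c ((σ : Gam)⁻¹ (Function.surjInv hc (c ((σ : Gam) (Function.surjInv hc n))))) = n
    rw [h2]
    have e : (σ : Gam)⁻¹ ((σ : Gam) (Function.surjInv hc n)) = Function.surjInv hc n :=
      (σ : Gam).symm_apply_apply _
    rw [e]; exact Function.surjInv_eq hc n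
  right_inv := by
    intro n
    have h2 := (σ.2 (Function.surjInv hc (c ((σ : Gam)⁻¹ (Function.surjInv hc n))))
      ((σ : Gam)⁻¹ (Function.surjInv hc n))).1 (Function.surjInv_eq hc _)
    change c ((σ : Gam) (Function.surjInv hc (c ((σ : Gam)⁻¹ (Function.surjInv hc n))))) = n
    rw [h2]
    have e : (σ : Gam) ((σ : Gam)⁻¹ (Function.surjInv hc n)) = Function.surjInv hc n :=
      (σ : Gam).apply_symm_apply _
    rw [e]; exact Function.surjInv_eq hc n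

theorem colPerm_apply (c : ℚ → ℕ) (hc : Function.Surjective c) (σ : colGam c) (q : ℚ) :
    colPerm c hc σ (c q) = c ((σ : Gam) q) := by
  change c ((σ : Gam) (Function.surjInv hc (c q))) = _
  exact (σ.2 _ _).1 (Function.surjInv_eq hc _)

theorem colPerm_mul (c : ℚ → ℕ) (hc : Function.Surjective c) (σ τ : colGam c) :
    colPerm c hc (σ * τ) = colPerm c hc σ * colPerm c hc τ := by
  ext n
  obtain ⟨q, rfl⟩ := hc n
  rw [colPerm_apply, Equiv.Perm.mul_apply, colPerm_apply, colPerm_apply]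
  rfl

theorem colPerm_one (c : ℚ → ℕ) (hc : Function.Surjective c) : colPerm c hc 1 = 1 := by
  ext n
  obtain ⟨q, rfl⟩ := hc n
  rw [colPerm_apply]
  rfl

theorem colPerm_inv (c : ℚ → ℕ) (hc : Function.Surjective c) (σ : colGam c) :
    colPerm c hc σ⁻¹ = (colPerm c hc σ)⁻¹ := by
  rw [eq_inv_iff_mul_eq_one, ← colPerm_mul, inv_mul_cancel, colPerm_one]

theorem F : FAsmStmt.{u, v} := by
  intro hF1 hL hC G Y _ _ _ _ _ _ _ _ hG C J _ P _ E z Δ hF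
  obtain ⟨c, hcd, hcp⟩ := hC
  have hc : Function.Surjective c := fun n => by
    obtain ⟨q, -, -, hq⟩ := hcd n 0 1 (by norm_num)
    exact ⟨q, hq⟩
  -- the subgroup
  let H : Subgroup G :=
    { carrier := {π | π ∈ MulAction.stabilizer G (C.f z) ∧ ∃ σ ∈ colGam c, Rz E Δ σ π}
      one_mem' := ⟨Subgroup.one_mem _, 1, Subgroup.one_mem _, Rz.one E hF.mono⟩
      mul_mem' := by
        rintro π ρ ⟨h1, σ, hσ, h2⟩ ⟨h3, τ, hτ, h4⟩
        exact ⟨Subgroup.mul_mem _ h1 h3, τ * σ, Subgroup.mul_mem _ hτ hσ, h2.mul E hF1 hG h4⟩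
      inv_mem' := by
        rintro π ⟨h1, σ, hσ, h2⟩
        exact ⟨Subgroup.inv_mem _ h1, σ⁻¹, Subgroup.inv_mem _ hσ, h2.inv E hF1 hG⟩ }
  have hHmem : ∀ h : H, ∃ σ : colGam c, Rz E Δ (σ : Gam) (h : G) := by
    rintro ⟨π, h1, σ, hσ, h2⟩
    exact ⟨⟨σ, hσ⟩, h2⟩
  choose s hs using hHmem
  have hsu : ∀ (h : H) (τ : colGam c), Rz E Δ (τ : Gam) (h : G) → s h = τ := by
    intro h τ hτ
    apply Subtype.ext
    exact Rz.unique E hF1 hL hG hF (hs h) hτ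
  refine ⟨H, fun π hπ => hπ.1, ?_, ?_⟩
  · -- closed
    apply isClosed_of_closure_subset
    intro π hπ
    have hst : IsClosed (MulAction.stabilizer G (C.f z) : Set G) := by
      have : (MulAction.stabilizer G (C.f z) : Set G) = {g | g • C.f z = C.f z} := rfl
      rw [this]
      exact isClosed_eq (by fun_prop) continuous_const
    have h1 : π ∈ MulAction.stabilizer G (C.f z) := by
      have : closure (H : Set G) ⊆ closure (MulAction.stabilizer G (C.f z) : Set G) :=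
        closure_mono fun π hπ => hπ.1
      have h2 := this hπ
      rwa [hst.closure_eq] at h2
    obtain ⟨σ, hσ, hσS⟩ := Rz.limit E hF1 hL hG hF (colGam c : Set Gam)
      (MulAction.stabilizer G (C.f z) : Set G) π hπ
    refine ⟨h1, σ, ?_, hσ⟩
    intro q q'
    obtain ⟨τ, hτ, h2⟩ := hσS {q, q'}
    rw [← h2 q (by simp), ← h2 q' (by simp)]
    exact hτ q q'
  · refine ⟨{ toFun := fun h => (colPerm c hc (s h))⁻¹
              map_one' := ?_
              map_mul' := ?_ }, ?_, ?_⟩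
    · rw [hsu 1 1 (Rz.one E hF.mono), colPerm_one, inv_one]
    · intro g h
      rw [hsu (g * h) (s h * s g) ((hs g).mul E hF1 hG (hs h)), colPerm_mul, mul_inv_rev]
    · intro p
      obtain ⟨σ, hσ⟩ := hcp p⁻¹
      have hσm : σ ∈ colGam c := by
        intro q q'
        rw [hσ, hσ]
        exact (p⁻¹).injective.eq_iff.symm
      obtain ⟨π, hπ, hπσ⟩ := hF.real σ
      refine ⟨⟨π, hπ, σ, hσm, hπσ⟩, ?_⟩
      change (colPerm c hc (s _))⁻¹ = p
      rw [hsu ⟨π, hπ, σ, hσm, hπσ⟩ ⟨σ, hσm⟩ hπσ, inv_eq_iff_eq_inv]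
      ext n
      obtain ⟨q, rfl⟩ := hc n
      rw [colPerm_apply]
      exact hσ q
    · intro n m
      obtain ⟨q, rfl⟩ := hc n
      rw [isOpen_iff_mem_nhds]
      intro h hh
      obtain ⟨O, hO, hhO, hOc⟩ := Rz.loc_inv E hL hG hF (h : G) q
      have hO' : IsOpen ((fun x : H => (x : G)) ⁻¹' O) := hO.preimage continuous_subtype_val
      filter_upwards [hO'.mem_nhds hhO] with h' hh'
      have e : ∀ x : H, (colPerm c hc (s x))⁻¹ (c q) = c ((s x : Gam)⁻¹ q) := by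
        intro x
        rw [← colPerm_inv, colPerm_apply]
        rfl
      have h1 := hOc _ hh' _ hhO _ _ (hs h') (hs h)
      change (colPerm c hc (s h'))⁻¹ (c q) = m
      have h2 : (colPerm c hc (s h))⁻¹ (c q) = m := hh
      rw [e] at h2 ⊢
      rw [h1]
      exact h2

end Pool.Agent.H71.HV
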