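import Pool.Agent.H71.HV.Targets2

/-!
Module F1: products and inverses of Phi.
-/

set_option autoImplicit false

open Set Topology TopologicalSpace Filter

namespace Pool.Agent.H71.HV

universe u v

theorem interp1 {G : Type*} [Group G] [MetricSpace G] (hG : RInv G) (F : Frame G) (g ρ c : G)
    (s r : ℚ) (hs : 0 < s) (h : dist (g * ρ) c + s < r) :
    ∃ (k : ℕ) (t : ℚ), 0 < t ∧ dist g (F.cen k) + s < t ∧ dist (F.cen k * ρ) c + t < r := by
  set ε : ℝ := (r - s - dist (g * ρ) c) / 3 with hε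
  have hε0 : 0 < ε := by rw [hε]; linarith
  obtain ⟨k, hk⟩ := F.dense_cen.exists_dist_lt g hε0
  obtain ⟨t, ht1, ht2⟩ := exists_rat_btwn
    (show (s : ℝ) + ε < (r : ℝ) - dist (g * ρ) c - ε by rw [hε]; linarith)
  refine ⟨k, t, ?_, ?_, ?_⟩
  · have : (0 : ℝ) < t := by
      have : (0 : ℝ) < s := by exact_mod_cast hs
      linarith
    exact_mod_cast this
  · linarith
  · have h1 : dist (F.cen k * ρ) c ≤ dist (F.cen k * ρ) (g * ρ) + dist (g * ρ) c :=
      dist_triangle _ _ _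
    rw [hG, dist_comm (F.cen k) g] at h1
    linarith

theorem interp2 {G : Type*} [Group G] [MetricSpace G] (hG : RInv G) (F : Frame G) (g ρ c : G)
    (r s : ℚ) (hr : 0 < r) (h : dist (g * ρ) c + r < s) :
    ∃ (k : ℕ) (t : ℚ), 0 < t ∧ dist (F.cen k * ρ) c + r < t ∧ dist g (F.cen k) + t < s := by
  set ε : ℝ := (s - r - dist (g * ρ) c) / 3 with hε
  have hε0 : 0 < ε := by rw [hε]; linarith
  obtain ⟨k, hk⟩ := F.dense_cen.exists_dist_lt g hε0
  obtain ⟨t, ht1, ht2⟩ := exists_rat_btwn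
    (show (r : ℝ) + dist (g * ρ) c + ε < (s : ℝ) - ε by rw [hε]; linarith)
  refine ⟨k, t, ?_, ?_, ?_⟩
  · have : (0 : ℝ) < t := by
      have : (0 : ℝ) < r := by exact_mod_cast hr
      have := dist_nonneg (x := g * ρ) (y := c)
      linarith
    exact_mod_cast this
  · have h1 : dist (F.cen k * ρ) c ≤ dist (F.cen k * ρ) (g * ρ) + dist (g * ρ) c :=
      dist_triangle _ _ _
    rw [hG, dist_comm (F.cen k) g] at h1
    linarith
  · linarith

theorem dist_mul_inv' {G : Type*} [Group G] [MetricSpace G] (hG : RInv G) (a b π : G) :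
    dist (a * π⁻¹) b = dist (b * π) a := by
  rw [← hG (a * π⁻¹) b π, inv_mul_cancel_right, dist_comm]

theorem F1 : F1Stmt.{u, v} := by
  intro G Y _ _ _ _ _ hG C J _ Δ
  refine ⟨?_, ?_⟩
  · intro φ ψ π ρ hφ hψ hπ hρ
    refine ⟨?_, ?_⟩
    · intro i j i' j' r s r' s' hr hs hr' hs' h1 h2
      rw [← mul_assoc] at h1 h2
      obtain ⟨k, t, ht, hk1, hk2⟩ := interp1 hG C.toFrame _ ρ _ s r hs h1
      obtain ⟨k', t', ht', hk1', hk2'⟩ := interp2 hG C.toFrame _ ρ _ r' s' hr' h2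
      exact (hρ.1 i k i' k' r t r' t' hr ht hr' ht' hk2 hk1').trans
        (hψ (hπ.1 k j k' j' t s t' s' ht hs ht' hs' hk1 hk2'))
    · intro i j i' j' r s r' s' hr hs hr' hs' h1 h2
      rw [← mul_assoc] at h1 h2
      obtain ⟨k, t, ht, hk1, hk2⟩ := interp2 hG C.toFrame _ ρ _ r s hr h1
      obtain ⟨k', t', ht', hk1', hk2'⟩ := interp1 hG C.toFrame _ ρ _ s' r' hs' h2
      exact (hψ (hπ.2 k j k' j' t s t' s' ht hs ht' hs' hk2 hk1')).trans
        (hρ.2 i k i' k' r t r' t' hr ht hr' ht' hk1 hk2')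
  · intro φ φ' π hφ hφ' h1 h2 hπ
    refine ⟨?_, ?_⟩
    · intro i j i' j' r s r' s' hr hs hr' hs' h3 h4
      rw [dist_mul_inv' hG] at h3 h4
      have := hπ.2 j i j' i' s r s' r' hs hr hs' hr' h3 h4
      have h5 := hφ' this
      rwa [h2] at h5
    · intro i j i' j' r s r' s' hr hs hr' hs' h3 h4
      rw [dist_mul_inv' hG] at h3 h4
      have := hπ.1 j i j' i' s r s' r' hs hr hs' hr' h3 h4
      have h5 := hφ' this
      rwa [h2] at h5

end Pool.Agent.H71.HV
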